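import Pool.Agent.Q56.CU.Main

/-!
# The Abel-Jacobi map in codimension two and the final theorem
-/

set_option autoImplicit false
set_option linter.unusedSectionVars false

open CategoryTheory AlgebraicGeometry

universe u v w

namespace Pool.Agent.Q56.CU

open Module Pool.Agent.H914 Pool.Agent.H914.VarClass Pool.Agent.H914.VarClass.Obj
  Pool.Agent.W492.BB Pool.Agent.W550.Corr Pool.Agent.TH133 Pool.Agent.W484.CH Pool.Agent.Q56.FD
  Pool.Agent.Q56.FE Pool.Agent.Q56.FR Pool.Agent.Y133.Half Pool.Agent.Q56.CP Pool.Agent.W458.MF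
  Pool.Agent.Q56.CTS Pool.Agent.Q56.CT

variable {k : Type u} [Field k] {𝒱 : VarClass k} {C : TheoryData.{u, v, 0} 𝒱 ℚ} {K : Type w}
  [Field K] [CharZero K] {H : WeilTheoryData.{u, v, w} C K} [hC : IsChowProj C]
  [hH : IsWeilProj H] {Fr : ∀ X : 𝒱.Obj, X ⟶ X} {p a : ℕ} [Fact p.Prime] {𝒜 : Set 𝒱.Obj}
  {A B V V' X Y Z : 𝒱.Obj} {β : C.A B}

/-- The class of a point of a curve has a nonzero trace. -/
lemma tr_point (hB : B.dim = 1) (hβ : C.Deg 1 β) (hβ' : H.cl β ≠ 0) :
    H.cl β ∈ H.gr B (2 * B.dim) ∧ H.tr B (H.cl β) ≠ 0 := by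
  have h1 : H.cl β ∈ H.gr B (2 * B.dim) := by
    have h2 := H.cl_mem hβ
    rw [hB]
    exact_mod_cast h2
  refine ⟨h1, fun h0 => hβ' ?_⟩
  apply H.nondeg
  intro b
  refine homog_induction H.toTheoryData (p := fun b => H.tr B (H.cl β * b) = 0) ?_ ?_ b
  · intro i b hb
    by_cases hi : i = 0
    · subst hi
      obtain ⟨c, rfl⟩ := hH.gr_zero B b hb
      rw [mul_smul_comm, mul_one, map_smul, h0, smul_zero]
    · exact tr_zero H (H.mul_mem h1 hb) (by omega)
  · intro a b ha hb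
    rw [mul_add, map_add, ha, hb, add_zero]

/-- Multiples of the class of a fibre. -/
lemma fibre_mul (hB : B.dim = 1) (hβ : C.Deg 1 β) {μ : K} (hμ : μ ≠ 0)
    (hpush : H.push (fst A B) (H.pull (snd A B) (H.cl β)) = μ • 1) (y : H.A (A.prod B)) :
    H.pull (snd A B) (H.cl β) * y = μ⁻¹ • (H.pull (snd A B) (H.cl β) *
      H.pull (fst A B) (H.push (fst A B) (H.pull (snd A B) (H.cl β) * y))) := by
  have hcen : ∀ z : H.A (A.prod B), H.pull (snd A B) (H.cl β) * z =
      z * H.pull (snd A B) (H.cl β) := by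
    intro z
    rw [← H.cl_pull]
    exact H.cl_central _ z
  refine homog_induction H.toTheoryData (p := fun y => H.pull (snd A B) (H.cl β) * y =
    μ⁻¹ • (H.pull (snd A B) (H.cl β) *
      H.pull (fst A B) (H.push (fst A B) (H.pull (snd A B) (H.cl β) * y)))) ?_ ?_ y
  · intro m y hy
    have h1 := H.kunneth A B m hy
    clear hy
    induction h1 using Submodule.span_induction with
    | mem x hx =>
      obtain ⟨l, c, b, -, hb, rfl⟩ := hx
      rcases lt_trichotomy (m - l) 0 with hi | hi | hi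
      · rw [H.gr_neg _ _ hi, Submodule.mem_bot] at hb
        rw [hb]
        simp
      · rw [hi] at hb
        obtain ⟨e, rfl⟩ := hH.gr_zero B b hb
        have h2 : H.pull (fst A B) c * H.pull (snd A B) (e • 1) = e • H.pull (fst A B) c := by
          rw [map_smul, map_one, mul_smul_comm, mul_one]
        rw [h2, mul_smul_comm, map_smul, H.proj_right, hpush, smul_mul_assoc, one_mul, map_smul,
          map_smul, mul_smul_comm, mul_smul_comm, smul_comm e μ, smul_smul μ⁻¹ μ,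
          inv_mul_cancel₀ hμ, one_smul]
      · have h2 : H.cl β * b = 0 := by
          have h3 := H.mul_mem (H.cl_mem hβ) hb
          rw [gr_top H (by rw [hB]; push_cast; omega)] at h3
          exact (Submodule.mem_bot _).1 h3
        have h3 : H.pull (snd A B) (H.cl β) * (H.pull (fst A B) c * H.pull (snd A B) b) = 0 := by
          rw [← mul_assoc, hcen, mul_assoc, ← map_mul, h2, map_zero, mul_zero]
        rw [h3, map_zero, map_zero, mul_zero, smul_zero]
    | zero => simp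
    | add x y _ _ hx hy =>
      rw [mul_add, map_add, map_add, mul_add, smul_add, ← hx, ← hy]
    | smul c x _ hx =>
      rw [mul_smul_comm, map_smul, map_smul, mul_smul_comm, smul_comm, ← hx]
  · intro x y hx hy
    rw [mul_add, map_add, map_add, mul_add, smul_add, ← hx, ← hy]

/-- the push-forward of the classes in `H^3(A) ⊗ H^1(B)` -/
lemma push_kun (hB : B.dim = 1) {x : H.A (A.prod B)} (hx : x ∈ tensorSpan (H.pull (fst A B)) (H.pull (snd A B)) (H.gr A 3) (H.gr B 1)) :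
    H.push (fst A B) x = 0 := by
  unfold tensorSpan at hx
  induction hx using Submodule.span_induction with
  | mem x hx =>
    obtain ⟨c, -, b, hb, rfl⟩ := hx
    have h1 := H.push_mem (fst A B) (H.pull_mem (snd A B) hb)
    rw [H.gr_neg _ _ (by
      rw [Obj.dim_prod, hB]
      push_cast
      omega)] at h1
    change H.push (fst A B) (H.pull (fst A B) c * H.pull (snd A B) b) = 0
    rw [H.proj_left, (Submodule.mem_bot _).1 h1, mul_zero]
  | zero => rw [map_zero]
  | add x y _ _ hx hy => rw [map_add, hx, hy, add_zero]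
  | smul c x _ hx => rw [map_smul, hx, smul_zero]

lemma mul_kun (hB : B.dim = 1) (hβ : C.Deg 1 β) {x : H.A (A.prod B)} (hx : x ∈ tensorSpan (H.pull (fst A B)) (H.pull (snd A B)) (H.gr A 3) (H.gr B 1)) :
    H.cl (C.up (snd A B) β) * x = 0 := by
  unfold tensorSpan at hx
  induction hx using Submodule.span_induction with
  | mem x hx =>
    obtain ⟨c, -, b, hb, rfl⟩ := hx
    have h2 : H.cl β * b = 0 := by
      have h3 := H.mul_mem (H.cl_mem hβ) hb
      rw [gr_top H (by rw [hB]; omega)] at h3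
      exact (Submodule.mem_bot _).1 h3
    change H.cl (C.up (snd A B) β) * (H.pull (fst A B) c * H.pull (snd A B) b) = 0
    rw [← mul_assoc, H.cl_central, mul_assoc, H.cl_pull, ← map_mul, h2, map_zero, mul_zero]
  | zero => rw [mul_zero]
  | add x y _ _ hx hy => rw [mul_add, hx, hy, add_zero]
  | smul c x _ hx => rw [mul_smul_comm, hx, smul_zero]

lemma kun_mem {x : H.A (A.prod B)} (hx : x ∈ tensorSpan (H.pull (fst A B)) (H.pull (snd A B)) (H.gr A 3) (H.gr B 1)) :
    x ∈ H.gr (A.prod B) (2 * (2 : ℕ)) := by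
  unfold tensorSpan at hx
  refine (Submodule.span_le (p := H.gr (A.prod B) (2 * (2 : ℕ)))).2 ?_ hx
  rintro _ ⟨c, hc, b, hb, rfl⟩
  have h1 := H.mul_mem (H.pull_mem (fst A B) hc) (H.pull_mem (snd A B) hb)
  exact h1

/-- **The Abel-Jacobi map in codimension two.** -/
theorem threeOne_of_onto (hB : B.dim = 1) (hβ : C.Deg 1 β) (hβ' : H.cl β ≠ 0)
    (h : AbelJacobiOnto H Fr (p ^ a) (C.up (snd A B) β) (fun _ : Unit => 𝟙 (A.prod B)) 1) :
    TateThreeOne H Fr (p ^ a) A B := by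
  rintro x ⟨hxg, hx⟩
  refine mem_aSpan_of (kun_mem hx) ?_
  have hxe : x ∈ invGen (fun _ : Unit => H.pull (𝟙 (A.prod B))) (H.pull (Fr (A.prod B)))
      (((p ^ a : ℕ) : K) ^ (1 + 1)) {x | H.cl (C.up (snd A B) β) * x = 0} :=
    Submodule.subset_span ⟨mul_kun hB hβ hx, fun _ => H.pull_id x, gen_iff.2 hxg⟩
  obtain ⟨s, hs, y', hy', hsum⟩ := Submodule.mem_sup.1 (h hxe)
  have hs' : s ∈ aTot H (A.prod B) := by
    refine (Submodule.span_le (p := aTot H (A.prod B))).2 ?_ hs
    rintro _ ⟨z, -, rfl⟩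
    exact cl_mem_aTot z
  obtain ⟨y, hy⟩ : y' ∈ LinearMap.range (LinearMap.mulLeft K (H.cl (C.up (snd A B) β))) := by
    unfold invGen at hy'
    refine (Submodule.span_le (p := LinearMap.range
      (LinearMap.mulLeft K (H.cl (C.up (snd A B) β))))).2 ?_ hy'
    rintro x ⟨⟨y, hy⟩, -⟩
    exact ⟨y, hy⟩
  rw [LinearMap.mulLeft_apply] at hy
  obtain ⟨htop, htr⟩ := tr_point hB hβ hβ'
  obtain ⟨μ, hμ, hpush⟩ := exists_push_top A B htop htr
  have hcl : H.cl (C.up (snd A B) β) = H.pull (snd A B) (H.cl β) := H.cl_pull _ _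
  have h1 := fibre_mul hB hβ hμ hpush y
  rw [← hcl, hy] at h1
  -- the push-forward is algebraic
  have h2 : H.push (fst A B) y' ∈ aTot H A := by
    have h3 : H.push (fst A B) s + H.push (fst A B) y' = 0 := by
      rw [← map_add, hsum]
      exact push_kun hB hx
    rw [eq_neg_of_add_eq_zero_right h3]
    exact Submodule.neg_mem _ (aTot_push _ hs')
  rw [← hsum]
  refine Submodule.add_mem _ hs' ?_
  rw [h1]
  exact Submodule.smul_mem _ _ (aTot_mul (cl_mem_aTot _) (aTot_pull _ h2))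

/-- The fixed eigenvalue. -/
lemma exists_eigenvalue [IsAlgClosed K] (hFr : IsFrobTheory H Fr p a) (h : IsNonzero (H.gr B 1)) :
    ∃ (r : K) (y : H.A B), y ∈ H.gr B 1 ∧ y ≠ 0 ∧
      IsWeilNumber (p ^ a) 1 r ∧ y ∈ (hF H (Fr B)).maxGenEigenspace r := by
  obtain ⟨x, hx, hx0⟩ := h
  have h1 := gr_gen (hFr.finite B) (Fr B) hx
  by_contra hcon
  push Not at hcon
  apply hx0
  have h2 : Submodule.span K {v | v ∈ H.gr B 1 ∧ ∃ μ, v ∈ (hF H (Fr B)).maxGenEigenspace μ} ≤
      ⊥ := by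
    refine Submodule.span_le.2 ?_
    rintro v ⟨hv, μ, hμ⟩
    by_contra hv0
    exact hcon μ v hv hv0 (weil_of_gen (i := 1) hFr (by exact_mod_cast hv) hμ hv0) hμ
  exact (Submodule.mem_bot _).1 (h2 h1)

lemma aSpan_eq (j : ℕ) : clSpan K H.cl (C.gr Z j) = aSpan H Z j := rfl

lemma strongFor_iff {q : ℕ} : StrongTateFor H Fr q Z ↔ StrongTate H Fr q Z := by
  constructor
  · intro h j x hx hg
    exact h j ⟨gen_iff.1 hg, hx⟩
  · rintro h j x ⟨hg, hx⟩
    exact h j x hx (gen_iff.2 hg)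

/-- **The main theorem.** -/
theorem main [IsAlgClosed K] (hcomm : Anticommute H) (hFr : IsFrobTheory H Fr p a) (ha : 0 < a)
    (hA : IsAbelianClass H Fr (p ^ a) 𝒜) (hB : IsBaseCurve H 𝒜 B β) :
    List.TFAE [
      ∀ A ∈ 𝒜, AbelJacobiOnto H Fr (p ^ a) (C.up (snd A B) β) (fun _ : Unit => 𝟙 (A.prod B)) 1,
      ∀ A ∈ 𝒜, TateThreeOne H Fr (p ^ a) A B,
      ∀ Z, IsSumFactor C 𝒜 Z → RatNum H Z ∧ StrongTateFor H Fr (p ^ a) Z,
      ∀ Z B', IsSumFactor C 𝒜 Z → IsSumFactor C 𝒜 B' → B'.dim = 1 →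
        ∀ (G : Type) (ρ : G → (Z.prod B' ⟶ Z.prod B')) (β' : C.A B'), C.Deg 1 β' →
          BeilinsonBloch H Fr (p ^ a) (C.up (snd Z B') β') ρ] := by
  obtain ⟨r, x, hx, hx0, hr, hxr⟩ := exists_eigenvalue hFr hB.genus
  tfae_have 1 → 2 := fun h A hA' => threeOne_of_onto hB.dim hB.deg hB.cl_ne (h A hA')
  tfae_have 2 → 3 := by
    intro h Z hZ
    have R := rules hcomm hFr hA hB.dim hx hx0 hr hxr h
    have hT : ∀ A ∈ 𝒜, StrongTate H Fr (p ^ a) A := fun A hA' => strong_of_rules hFr ha hA hr R hA'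
    obtain ⟨h3, h4⟩ := numTate_of_vanish hFr fun T hT' i => vanish_sum hFr ha hA hT hT' hZ i
    exact ⟨h3, strongFor_iff.2 h4⟩
  tfae_have 3 → 4 := by
    intro h Z B' hZ hB1 hB2 G ρ β' hβ1 i
    have hT : ∀ A ∈ 𝒜, StrongTate H Fr (p ^ a) A := fun A hA' =>
      strongFor_iff.1 (h A ((IsFactor.refl A).sum hA')).2
    obtain ⟨h3, h4⟩ := numTate_of_vanish (Z := Z.prod B') hFr fun T hT' i =>
      vanish_prod hFr ha hA hT hT' hZ hB1 i
    refine ⟨rankFormula_of hFr ha hB2 h3 h4 ρ hβ1 i, ?_⟩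
    have hfin := hFr.finite (Z.prod B')
    exact (lerayOne_eq (one_lt_pow_prime ha) (hFr.frobenius _) (hFr.weights _) h4 h3
      (C.pull_mem _ hβ1) i).le.trans le_sup_left
  tfae_have 4 → 1 := by
    intro h A hA'
    exact (h A B ((IsFactor.refl A).sum hA') hB.gen hB.dim Unit (fun _ => 𝟙 (A.prod B)) β hB.deg
      1).2
  tfae_finish

end Pool.Agent.Q56.CU
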