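import Pool.Agent.Q56.CP.Defs
import Pool.Agent.Q56.CT.WDefs

/-!
# Codimension two over one function field: definitions
-/

set_option autoImplicit false

open CategoryTheory AlgebraicGeometry

universe u v w

namespace Pool.Agent.Q56.CU

section algebra

variable {K R A : Type*} [Field K] [Ring R] [Algebra K R] [Ring A] [Algebra ℚ A] {G : Type}

/-- The elements of `p` anticommute. -/
def AnticommOn (p : Submodule K R) : Prop := ∀ x ∈ p, ∀ y ∈ p, x * y = -(y * x)

/-- The space `p` is not zero. -/
def IsNonzero (p : Submodule K R) : Prop := ∃ x ∈ p, x ≠ 0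

/-- The image of `x` under `f` is not zero. -/
def MapNe (f : A →+* R) (x : A) : Prop := f x ≠ 0

/-- The span of the images of the elements of `p`. -/
def clSpan (K : Type*) {R A : Type*} [Field K] [Ring R] [Algebra K R] [Ring A] [Algebra ℚ A]
    (cl : A →+* R) (p : Submodule ℚ A) : Submodule K R :=
  Submodule.span K {x | ∃ z ∈ p, x = cl z}

/-- The space of the elements of the set `S` which are invariant under the endomorphisms `ρ g` and
lie in the generalised eigenspace of `φ` for the eigenvalue `c`. -/
def invGen (ρ : G → (R →ₐ[K] R)) (φ : R →ₐ[K] R) (c : K) (S : Set R) : Submodule K R :=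
  Submodule.span K {x | x ∈ S ∧ (∀ g, ρ g x = x) ∧
    ∃ n : ℕ, ((φ.toLinearMap - c • (1 : Module.End K R)) ^ n) x = 0}

/-- The space of the invariant elements `z` of `p` for which `cl (f z) = 0`. -/
def homZero (cl : A →+* R) (σ : G → (A →ₐ[ℚ] A)) (f : A) (p : Submodule ℚ A) : Submodule ℚ A :=
  Submodule.span ℚ {z | z ∈ p ∧ cl (f * z) = 0 ∧ ∀ g, σ g z = z}

/-- The space of the invariant elements of the form `f w`, with `w` in `p`. -/
def multiples (σ : G → (A →ₐ[ℚ] A)) (f : A) (p : Submodule ℚ A) : Submodule ℚ A :=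
  Submodule.span ℚ {z | (∃ w, w ∈ p ∧ z = f * w) ∧ ∀ g, σ g z = z}

/-- The quotient of `homZero` (for `p`) by `multiples` (for `p'`) is finite-dimensional, of the same
dimension as the quotient of the invariant generalised eigenspaces in the kernel and in the image of
the multiplication by `cl f`. -/
def SameRank (cl : A →+* R) (σ : G → (A →ₐ[ℚ] A)) (ρ : G → (R →ₐ[K] R)) (φ : R →ₐ[K] R) (c : K)
    (f : A) (p p' : Submodule ℚ A) : Prop :=
  Module.Finite ℚ (homZero cl σ f p) ∧ multiples σ f p' ≤ homZero cl σ f p ∧
    invGen ρ φ c (Set.range fun y => cl f * y) ≤ invGen ρ φ c {x | cl f * x = 0} ∧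
    Module.finrank ℚ (homZero cl σ f p) - Module.finrank ℚ (multiples σ f p') =
      Module.finrank K (invGen ρ φ c {x | cl f * x = 0}) -
        Module.finrank K (invGen ρ φ c (Set.range fun y => cl f * y))

/-- The invariant generalised eigenspace in the kernel of the multiplication by `cl f` is spanned by
the images of the elements of `homZero`, modulo the one in the image of the multiplication. -/
def IsOnto (cl : A →+* R) (σ : G → (A →ₐ[ℚ] A)) (ρ : G → (R →ₐ[K] R)) (φ : R →ₐ[K] R) (c : K)
    (f : A) (p : Submodule ℚ A) : Prop :=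
  invGen ρ φ c {x | cl f * x = 0} ≤
    clSpan K cl (homZero cl σ f p) ⊔ invGen ρ φ c (Set.range fun y => cl f * y)

end algebra

open Pool.Agent.H914 Pool.Agent.H914.VarClass Pool.Agent.H914.VarClass.Obj
  Pool.Agent.W492.BB Pool.Agent.Q56.CP Pool.Agent.Q56.CTS

variable {k : Type u} [Field k] {𝒱 : VarClass k} {C : TheoryData.{u, v, 0} 𝒱 ℚ} {K : Type w}
  [Field K]

/-- Classes of degree one anticommute. -/
def Anticommute (H : WeilTheoryData.{u, v, w} C K) : Prop := ∀ X : 𝒱.Obj, AnticommOn (H.gr X 1)

/-- For a divisor `D` the form `tr(D ^ (dim A - 1) x y)` on the classes of degree one is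
nondegenerate. -/
def Polarised (H : WeilTheoryData.{u, v, w} C K) (A : 𝒱.Obj) : Prop :=
  ∃ D : C.A A, C.Deg 1 D ∧ NondegOn (H.gr A 1) (H.tr A) (H.cl (D ^ (A.dim - 1)))

/-- The class `𝒜` has the properties of the class of all abelian varieties over the field with `q`
elements: it is closed under products, the cohomology of `A` in `𝒜` is generated by the classes of
degree one, `A` has a polarisation, homologically trivial self-correspondences of `A` are nilpotent
(Kimura, O'Sullivan), and every Weil number of weight one is an eigenvalue of the Frobenius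
endomorphism on `H^1(A)` for some `A` in `𝒜` (Honda, Tate). -/
structure IsAbelianClass [CharZero K] (H : WeilTheoryData.{u, v, w} C K)
    (Fr : ∀ X : 𝒱.Obj, X ⟶ X) (q : ℕ) (𝒜 : Set 𝒱.Obj) : Prop where
  prod : ∀ A ∈ 𝒜, ∀ B ∈ 𝒜, A.prod B ∈ 𝒜
  gen : ∀ A ∈ 𝒜, Generates (H.gr A 1)
  polar : ∀ A ∈ 𝒜, Polarised H A
  nilp : ∀ A ∈ 𝒜, Nilp H A
  honda : ∀ π : K, IsWeilNumber q 1 π → ∃ A ∈ 𝒜, IsEigOn (H.pull (Fr A)) (H.gr A 1) π

/-- `B` is a curve with `H^1(B) ≠ 0` and motive generated by the class `𝒜`, and `β` is the class of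
a zero-cycle of nonzero degree. -/
structure IsBaseCurve (H : WeilTheoryData.{u, v, w} C K) (𝒜 : Set 𝒱.Obj) (B : 𝒱.Obj)
    (β : C.A B) : Prop where
  dim : B.dim = 1
  gen : IsSumFactor C 𝒜 B
  genus : IsNonzero (H.gr B 1)
  deg : C.Deg 1 β
  cl_ne : MapNe H.cl β

/-- The strong form of the Tate conjecture for `X`: for all `j` the generalised eigenspace of the
Frobenius endomorphism on `H^(2 j)(X)` for the eigenvalue `q ^ j` is spanned by the classes of
cycles of codimension `j`. -/
def StrongTateFor (H : WeilTheoryData.{u, v, w} C K) (Fr : ∀ X : 𝒱.Obj, X ⟶ X) (q : ℕ)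
    (X : 𝒱.Obj) : Prop :=
  ∀ j : ℕ, GenEigIn (H.pull (Fr X)) ((q : K) ^ j) (H.gr X (2 * j)) (clSpan K H.cl (C.gr X j))

/-- The Tate conjecture for the classes in `H^3(A) ⊗ H^1(B)`, of codimension two on `A × B`: those
which are generalised eigenvectors of the Frobenius endomorphism for the eigenvalue `q ^ 2` are
linear combinations of classes of cycles. -/
def TateThreeOne (H : WeilTheoryData.{u, v, w} C K) (Fr : ∀ X : 𝒱.Obj, X ⟶ X) (q : ℕ)
    (A B : 𝒱.Obj) : Prop :=
  GenEigIn (H.pull (Fr (A.prod B))) ((q : K) ^ 2)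
    (tensorSpan (H.pull (fst A B)) (H.pull (snd A B)) (H.gr A 3) (H.gr B 1))
    (clSpan K H.cl (C.gr (A.prod B) 2))

section bb

variable {W : 𝒱.Obj} {G : Type} (H : WeilTheoryData.{u, v, w} C K)
  (Fr : ∀ X : 𝒱.Obj, X ⟶ X) (q : ℕ) (f : C.A W) (ρ : G → (W ⟶ W)) (i : ℕ)

/-- The Abel-Jacobi map in codimension `i + 1` for the generic fibre of `W` is onto, with invariants
under the endomorphisms `ρ g`: the invariant generalised eigenvectors for the eigenvalue
`q ^ (i + 1)` in the space `L^1` of the classes killed by `cl(f)` are, modulo those in the space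
`L^2` of the multiples of `cl(f)`, combinations of the classes of the invariant cycles `z` of
codimension `i + 1` with `cl(f z) = 0` (which are homologically trivial on the generic fibre). -/
def AbelJacobiOnto : Prop :=
  IsOnto H.cl (fun g => C.pull (ρ g)) (fun g => H.pull (ρ g)) (H.pull (Fr W))
    ((q : K) ^ (i + 1)) f (C.gr W (i + 1))

/-- The conjecture of Beilinson and Bloch in all codimensions for the generic fibre of `W`, with
invariants under the endomorphisms `ρ g`. For all `i` the quotient of the space of the cycles `z` of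
codimension `i + 1` with `cl(f z) = 0` by the space of the multiples of `f` (the group of the
homologically trivial cycles of codimension `i + 1` on the generic fibre) is finite-dimensional, of
dimension the multiplicity of the eigenvalue `q ^ (i + 1)` of the Frobenius endomorphism on the
invariant part of `L^1 / L^2`, and the Abel-Jacobi map is onto (so it is an isomorphism, with
coefficients in `K`). (If `W = Z × B → B` is a constant family over a curve and `f` is the class of
a fibre, `L^1 / L^2` in degree `2 i + 2` is the Kunneth component `H^(2 i + 1)(Z) ⊗ H^1(B)`; and the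
eigenvalue `q ^ (i + 1)` only occurs in degree `2 i + 2`.) -/
def BeilinsonBloch : Prop :=
  ∀ i : ℕ, SameRank H.cl (fun g => C.pull (ρ g)) (fun g => H.pull (ρ g)) (H.pull (Fr W))
    ((q : K) ^ (i + 1)) f (C.gr W (i + 1)) (C.gr W i) ∧ AbelJacobiOnto H Fr q f ρ i

end bb

end Pool.Agent.Q56.CU
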