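import Pool.Agent.Q56.CU.Rel
import Pool.Agent.Q56.CU.Defs
import Pool.Agent.Q56.CP.Const

/-!
# Words in the cohomology
-/

set_option autoImplicit false
set_option linter.unusedSectionVars false

open CategoryTheory AlgebraicGeometry

universe u v w

namespace Pool.Agent.Q56.CU

open Module Polynomial Pool.Agent.H914 Pool.Agent.H914.VarClass Pool.Agent.H914.VarClass.Obj
  Pool.Agent.W492.BB Pool.Agent.W550.Corr Pool.Agent.TH133 Pool.Agent.W484.CH Pool.Agent.Q56.FD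
  Pool.Agent.Q56.FE Pool.Agent.Q56.FR Pool.Agent.Y133.Half Pool.Agent.Q56.CP Pool.Agent.W458.MF
  Pool.Agent.Q56.CTS Pool.Agent.Q56.CT

variable {k : Type u} [Field k] {𝒱 : VarClass k} {C : TheoryData.{u, v, 0} 𝒱 ℚ} {K : Type w}
  [Field K] [CharZero K] {H : WeilTheoryData.{u, v, w} C K} [hC : IsChowProj C]
  [hH : IsWeilProj H] {Fr : ∀ X : 𝒱.Obj, X ⟶ X} {p a : ℕ} [Fact p.Prime] {𝒜 : Set 𝒱.Obj}
  {B V V' X Y : 𝒱.Obj}

/-! ### Algebraic classes -/

lemma aTot_mul {x y : H.A V} (hx : x ∈ aTot H V) (hy : y ∈ aTot H V) : x * y ∈ aTot H V := by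
  unfold aTot at hx hy ⊢
  refine (Submodule.span_le (p := (Submodule.span K {c | ∃ z : C.A V, c = H.cl z}).comap
    (LinearMap.mulRight K y))).2 ?_ hx
  rintro _ ⟨z, rfl⟩
  refine (Submodule.span_le (p := (Submodule.span K {c | ∃ z : C.A V, c = H.cl z}).comap
    (LinearMap.mulLeft K (H.cl z)))).2 ?_ hy
  rintro _ ⟨z', rfl⟩
  exact Submodule.subset_span ⟨z * z', (map_mul (H.cl (X := V)) z z').symm⟩

lemma one_mem_aTot : (1 : H.A V) ∈ aTot H V := Submodule.subset_span ⟨1, (map_one _).symm⟩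

lemma cl_mem_aTot (z : C.A V) : H.cl z ∈ aTot H V := Submodule.subset_span ⟨z, rfl⟩

lemma aTot_pull (g : V' ⟶ V) {x : H.A V} (hx : x ∈ aTot H V) : H.pull g x ∈ aTot H V' := by
  refine (Submodule.span_le (p := (aTot H V').comap (H.pull g).toLinearMap)).2 ?_ hx
  rintro _ ⟨z, rfl⟩
  exact Submodule.subset_span ⟨C.pull g z, (H.cl_pull g z).symm⟩

lemma aTot_push (g : V ⟶ V') {x : H.A V} (hx : x ∈ aTot H V) : H.push g x ∈ aTot H V' := by
  refine (Submodule.span_le (p := (aTot H V').comap (H.push g))).2 ?_ hx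
  rintro _ ⟨z, rfl⟩
  exact Submodule.subset_span ⟨C.push g z, (H.cl_push g z).symm⟩

/-- The push-forward of a class of top degree. -/
lemma exists_push_top (V Y : 𝒱.Obj) {u : H.A Y} (hu : u ∈ H.gr Y (2 * Y.dim))
    (htr : H.tr Y u ≠ 0) : ∃ μ : K, μ ≠ 0 ∧ H.push (fst V Y) (H.pull (snd V Y) u) = μ • 1 := by
  have h1 := H.push_mem (fst V Y) (H.pull_mem (snd V Y) hu)
  have h2 : 2 * (Y.dim : ℤ) + 2 * ((V.dim : ℤ) - (V.prod Y).dim) = 0 := by
    rw [Obj.dim_prod]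
    push_cast
    ring
  rw [h2] at h1
  obtain ⟨μ, hμ⟩ := hH.gr_zero V _ h1
  refine ⟨μ, ?_, hμ⟩
  rintro rfl
  obtain ⟨a₀, -, -, ha₀⟩ := exists_deg_one C V
  have h3 : H.tr (V.prod Y) (H.pull (fst V Y) (H.cl a₀) * H.pull (snd V Y) u) = H.tr Y u := by
    rw [tr_snd, ← H.cl_pull, ← H.cl_push, ha₀ Y, map_one, one_mul]
  rw [tr_fst, hμ, zero_smul, mul_zero, map_zero] at h3
  exact htr h3.symm

/-- **Contraction.** -/
lemma contract {u : H.A Y} (hu : u ∈ H.gr Y (2 * Y.dim)) (htr : H.tr Y u ≠ 0) {x : H.A V}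
    (h : H.pull (fst V Y) x * H.pull (snd V Y) u ∈ aTot H (V.prod Y)) : x ∈ aTot H V := by
  obtain ⟨μ, hμ, hpush⟩ := exists_push_top V Y hu htr
  have h1 := aTot_push (fst V Y) h
  rw [H.proj_left, hpush, mul_smul_comm, mul_one] at h1
  have h2 := Submodule.smul_mem _ μ⁻¹ h1
  rwa [inv_smul_smul₀ hμ] at h2

/-! ### Generalised eigenvectors -/

lemma gen_iff {W : Type*} [AddCommGroup W] [Module K W] {φ : Module.End K W} {c : K} {x : W} :
    IsGenEig φ c x ↔ x ∈ φ.maxGenEigenspace c := by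
  rw [Module.End.mem_maxGenEigenspace]
  rfl

lemma gen_mul {f : V ⟶ V} {x y : H.A V} {μ ν : K} (hx : x ∈ (hF H f).maxGenEigenspace μ)
    (hy : y ∈ (hF H f).maxGenEigenspace ν) : x * y ∈ (hF H f).maxGenEigenspace (μ * ν) :=
  gen_bilin (β := LinearMap.mul K (H.A V)) (f := hF H f) (g := hF H f) (h := hF H f)
    (fun x y => (map_mul (H.pull f) x y).symm) hx hy

lemma gen_pull' (hnat : ∀ {X Y : 𝒱.Obj} (f : X ⟶ Y), Fr X ≫ f = f ≫ Fr Y) (f : V ⟶ V') {ν : K}
    {x : H.A V'} (hx : x ∈ (hF H (Fr V')).maxGenEigenspace ν) :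
    H.pull f x ∈ (hF H (Fr V)).maxGenEigenspace ν := by
  have h1 := gen_map (θ := (H.pull f).toLinearMap) (T := hF H (Fr V'))
    (T' := hF H (Fr V)) (c := 1) (fun x => by
      rw [one_smul]
      change H.pull (Fr V) (H.pull f x) = H.pull f (H.pull (Fr V') x)
      rw [← H.pull_comp, ← H.pull_comp, hnat]) hx
  rwa [one_mul] at h1

lemma gen_one (f : V ⟶ V) : (1 : H.A V) ∈ (hF H f).maxGenEigenspace (1 : K) := by
  apply eig_mem_gen
  rw [one_smul]
  exact map_one (H.pull f)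

/-- The classes of degree `i` are spanned by generalised eigenvectors. -/
lemma gr_gen [IsAlgClosed K] (hfin : Module.Finite K (H.A Y)) (f : Y ⟶ Y) {i : ℤ} {x : H.A Y}
    (hx : x ∈ H.gr Y i) :
    x ∈ Submodule.span K {v | v ∈ H.gr Y i ∧ ∃ μ, v ∈ (hF H f).maxGenEigenspace μ} := by
  have h1 : (⨆ μ, (hF H f).maxGenEigenspace μ) = ⊤ := Module.End.iSup_maxGenEigenspace_eq_top _
  have h2 : H.gr Y i = ⨆ μ, H.gr Y i ⊓ (hF H f).maxGenEigenspace μ :=
    Submodule.eq_iSup_inf_genEigenspace (f := hF H f) ⊤ (fun x hx => H.pull_mem _ hx) h1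
  rw [h2] at hx
  refine Submodule.iSup_induction (fun μ => H.gr Y i ⊓ (hF H f).maxGenEigenspace μ)
    (motive := fun x => x ∈ Submodule.span K
      {v | v ∈ H.gr Y i ∧ ∃ μ, v ∈ (hF H f).maxGenEigenspace μ}) hx ?_ ?_ ?_
  · intro μ x hx
    exact Submodule.subset_span ⟨hx.1, μ, hx.2⟩
  · exact Submodule.zero_mem _
  · intro x y hx hy
    exact Submodule.add_mem _ hx hy

/-- The eigenvalues in degree `i` are Weil numbers of weight `i`. -/
lemma weil_of_gen (hFr : IsFrobTheory H Fr p a) {i : ℕ} {x : H.A Y} {μ : K}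
    (hx : x ∈ H.gr Y i) (hg : x ∈ (hF H (Fr Y)).maxGenEigenspace μ) (h0 : x ≠ 0) :
    IsWeilNumber (p ^ a) i μ := by
  obtain ⟨P, hP, -, hPx⟩ := hFr.weil Y i
  -- an eigenvector
  obtain ⟨y, hy, hy0, hyμ⟩ : ∃ y ∈ H.gr Y i, y ≠ 0 ∧ hF H (Fr Y) y = μ • y := by
    rw [Module.End.mem_maxGenEigenspace] at hg
    classical
    have hfind := Nat.find_spec hg
    have hn0 : Nat.find hg ≠ 0 := by
      intro h1
      rw [h1, pow_zero, Module.End.one_apply] at hfind
      exact h0 hfind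
    obtain ⟨m, hm⟩ := Nat.exists_eq_succ_of_ne_zero hn0
    refine ⟨((hF H (Fr Y) - μ • (1 : Module.End K (H.A Y))) ^ m) x,
      shift_pow_mem (Fr Y) μ m hx, ?_, ?_⟩
    · intro h1
      exact Nat.find_min hg (m := m) (by omega) h1
    · rw [hm, pow_succ', Module.End.mul_apply, LinearMap.sub_apply, LinearMap.smul_apply,
        Module.End.one_apply, sub_eq_zero] at hfind
      exact hfind
  have h1 := hPx y hy
  rw [aeval_int_eigen hyμ] at h1
  have h2 : aeval μ P = 0 := (smul_eq_zero.1 h1).resolve_right hy0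
  refine ⟨⟨P, hP.monic, h2⟩, fun z hz => hP.weil z ?_⟩
  have h3 : minpoly ℚ μ ∣ P.map (algebraMap ℤ ℚ) := by
    apply minpoly.dvd
    rw [Polynomial.aeval_map_algebraMap]
    exact h2
  obtain ⟨R, hR⟩ := h3
  have h4 : aeval z (P.map (algebraMap ℤ ℚ)) = 0 := by
    rw [hR, map_mul, hz, zero_mul]
  rwa [Polynomial.aeval_map_algebraMap] at h4

/-! ### Letters and words -/

/-- the eigenvalue of a label -/
def egL : K ⊕ K → K := Sum.elim id id

/-- the label is possible for the variety -/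
def Ok (𝒜 : Set 𝒱.Obj) (B Y : 𝒱.Obj) : K ⊕ K → Prop :=
  Sum.elim (fun _ => Y ∈ 𝒜) (fun _ => Y = B)

/-- a pulled back generalised eigenvector of the Frobenius endomorphism in degree one -/
structure Let (H : WeilTheoryData.{u, v, w} C K) (Fr : ∀ X : 𝒱.Obj, X ⟶ X) (𝒜 : Set 𝒱.Obj)
    (B V : 𝒱.Obj) where
  Y : 𝒱.Obj
  f : V ⟶ Y
  lab : K ⊕ K
  ok : Ok 𝒜 B Y lab
  x : H.A Y
  hx : x ∈ H.gr Y 1
  hg : x ∈ (hF H (Fr Y)).maxGenEigenspace (egL lab)

namespace Let

/-- the class -/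
noncomputable def val (l : Let H Fr 𝒜 B V) : H.A V := H.pull l.f l.x

/-- pull-back of letters -/
noncomputable def pull (g : V' ⟶ V) (l : Let H Fr 𝒜 B V) : Let H Fr 𝒜 B V' :=
  ⟨l.Y, g ≫ l.f, l.lab, l.ok, l.x, l.hx, l.hg⟩

lemma val_pull (g : V' ⟶ V) (l : Let H Fr 𝒜 B V) : (l.pull g).val = H.pull g l.val :=
  H.pull_comp g l.f l.x

lemma val_mem (l : Let H Fr 𝒜 B V) : l.val ∈ H.gr V 1 := H.pull_mem _ l.hx

end Let

/-- the class of a list of letters -/
noncomputable def word (L : List (Let H Fr 𝒜 B V)) : H.A V := (L.map Let.val).prod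

/-- the labels of a list of letters -/
def labs (L : List (Let H Fr 𝒜 B V)) : Multiset (K ⊕ K) :=
  (L : Multiset (Let H Fr 𝒜 B V)).map Let.lab

/-- the eigenvalue -/
def eg (s : Multiset (K ⊕ K)) : K := (s.map egL).prod

lemma labs_nil : labs ([] : List (Let H Fr 𝒜 B V)) = 0 := rfl

lemma labs_cons (l : Let H Fr 𝒜 B V) (L : List (Let H Fr 𝒜 B V)) :
    labs (l :: L) = l.lab ::ₘ labs L := by
  rw [labs, ← Multiset.cons_coe, Multiset.map_cons]
  rfl

lemma labs_append (L L' : List (Let H Fr 𝒜 B V)) : labs (L ++ L') = labs L + labs L' := by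
  rw [labs, ← Multiset.coe_add, Multiset.map_add]
  rfl

lemma card_labs (L : List (Let H Fr 𝒜 B V)) : Multiset.card (labs L) = L.length := by
  rw [labs, Multiset.card_map, Multiset.coe_card]

lemma word_nil : word ([] : List (Let H Fr 𝒜 B V)) = 1 := rfl

lemma word_cons (l : Let H Fr 𝒜 B V) (L : List (Let H Fr 𝒜 B V)) :
    word (l :: L) = l.val * word L := by
  rw [word, List.map_cons, List.prod_cons]
  rfl

lemma word_append (L L' : List (Let H Fr 𝒜 B V)) : word (L ++ L') = word L * word L' := by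
  rw [word, List.map_append, List.prod_append]
  rfl

lemma word_mem (L : List (Let H Fr 𝒜 B V)) : word L ∈ H.gr V (L.length : ℤ) := by
  induction L with
  | nil => exact H.one_mem V
  | cons l L ih =>
    rw [word_cons, List.length_cons]
    have h1 := H.mul_mem l.val_mem ih
    rw [add_comm] at h1
    exact_mod_cast h1

lemma word_pull (g : V' ⟶ V) (L : List (Let H Fr 𝒜 B V)) :
    word (L.map (Let.pull g)) = H.pull g (word L) := by
  induction L with
  | nil => rw [List.map_nil, word_nil, word_nil, map_one]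
  | cons l L ih => rw [List.map_cons, word_cons, word_cons, map_mul, ih, Let.val_pull]

lemma labs_pull (g : V' ⟶ V) (L : List (Let H Fr 𝒜 B V)) :
    labs (L.map (Let.pull g)) = labs L := by
  induction L with
  | nil => rfl
  | cons l L ih =>
    rw [List.map_cons, labs_cons, labs_cons, ih]
    rfl

/-- permutations -/
lemma word_perm (hcomm : Anticommute H) {L L' : List (Let H Fr 𝒜 B V)} (h : L.Perm L') :
    ∃ c : K, word L = c • word L' := by
  induction h with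
  | nil => exact ⟨1, (one_smul _ _).symm⟩
  | cons l _ ih =>
    obtain ⟨c, hc⟩ := ih
    exact ⟨c, by rw [word_cons, word_cons, hc, mul_smul_comm]⟩
  | swap l l' L =>
    refine ⟨-1, ?_⟩
    have h1 : l'.val * l.val = -(l.val * l'.val) := hcomm V _ l'.val_mem _ l.val_mem
    rw [word_cons, word_cons, word_cons, word_cons, ← mul_assoc, h1, neg_mul, mul_assoc,
      neg_one_smul]
  | trans _ _ ih ih' =>
    obtain ⟨c, hc⟩ := ih
    obtain ⟨c', hc'⟩ := ih'
    exact ⟨c * c', by rw [hc, hc', smul_smul]⟩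

/-- the eigenvalue of a word -/
lemma word_gen (hnat : ∀ {X Y : 𝒱.Obj} (f : X ⟶ Y), Fr X ≫ f = f ≫ Fr Y)
    (L : List (Let H Fr 𝒜 B V)) : word L ∈ (hF H (Fr V)).maxGenEigenspace (eg (labs L)) := by
  induction L with
  | nil =>
    rw [word_nil, labs_nil, eg, Multiset.map_zero, Multiset.prod_zero]
    exact gen_one _
  | cons l L ih =>
    rw [word_cons, labs_cons, eg, Multiset.map_cons, Multiset.prod_cons]
    exact gen_mul (gen_pull' hnat l.f l.hg) ih

/-- The words with the labels `s` are algebraic. -/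
def Alg (H : WeilTheoryData.{u, v, w} C K) (Fr : ∀ X : 𝒱.Obj, X ⟶ X) (𝒜 : Set 𝒱.Obj)
    (B : 𝒱.Obj) (s : Multiset (K ⊕ K)) : Prop :=
  ∀ (V : 𝒱.Obj) (L : List (Let H Fr 𝒜 B V)), labs L = s → word L ∈ aTot H V

/-- splitting of words -/
lemma split_word (hcomm : Anticommute H) {L : List (Let H Fr 𝒜 B V)} {s t : Multiset (K ⊕ K)}
    (h : labs L = s + t) : ∃ (L₁ L₂ : List (Let H Fr 𝒜 B V)) (c : K), labs L₁ = s ∧
      labs L₂ = t ∧ word L = c • (word L₁ * word L₂) := by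
  obtain ⟨M₁, M₂, h1, h2, h3⟩ := splitMap Let.lab s t (L : Multiset (Let H Fr 𝒜 B V)) h
  obtain ⟨L₁, rfl⟩ := Quot.exists_rep M₁
  obtain ⟨L₂, rfl⟩ := Quot.exists_rep M₂
  have hperm : L.Perm (L₁ ++ L₂) := by
    rw [← Multiset.coe_eq_coe, ← Multiset.coe_add]
    exact h1
  obtain ⟨c, hc⟩ := word_perm hcomm hperm
  exact ⟨L₁, L₂, c, h2, h3, by rw [hc, word_append]⟩

lemma alg_add (hcomm : Anticommute H) {s t : Multiset (K ⊕ K)} (hs : Alg H Fr 𝒜 B s)
    (ht : Alg H Fr 𝒜 B t) : Alg H Fr 𝒜 B (s + t) := by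
  intro V L h
  obtain ⟨L₁, L₂, c, h1, h2, h3⟩ := split_word hcomm h
  rw [h3]
  exact Submodule.smul_mem _ _ (aTot_mul (hs V L₁ h1) (ht V L₂ h2))

lemma alg_zero : Alg H Fr 𝒜 B 0 := by
  intro V L h
  have h1 : L = [] := by
    have h2 : Multiset.card (labs L) = 0 := by rw [h]; rfl
    rw [card_labs] at h2
    exact List.length_eq_zero_iff.1 h2
  rw [h1]
  exact one_mem_aTot

/-- **Contraction of words.** -/
lemma alg_contract {s : Multiset (K ⊕ K)} {y y' : K ⊕ K} {Y : 𝒱.Obj} (hok : Ok 𝒜 B Y y)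
    (hok' : Ok 𝒜 B Y y') {x x' c : H.A Y} (hx : x ∈ H.gr Y 1) (hx' : x' ∈ H.gr Y 1)
    (hc : c ∈ aTot H Y) (hg : x ∈ (hF H (Fr Y)).maxGenEigenspace (egL y))
    (hg' : x' ∈ (hF H (Fr Y)).maxGenEigenspace (egL y')) (htop : x * x' * c ∈ H.gr Y (2 * Y.dim))
    (htr : H.tr Y (x * x' * c) ≠ 0) (h : Alg H Fr 𝒜 B (s + {y, y'})) : Alg H Fr 𝒜 B s := by
  intro V L hL
  let l : Let H Fr 𝒜 B (V.prod Y) := ⟨Y, snd V Y, y, hok, x, hx, hg⟩
  let l' : Let H Fr 𝒜 B (V.prod Y) := ⟨Y, snd V Y, y', hok', x', hx', hg'⟩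
  have h1 := h (V.prod Y) (L.map (Let.pull (fst V Y)) ++ [l, l']) (by
    rw [labs_append, labs_pull, hL, labs_cons, labs_cons, labs_nil]
    rfl)
  have h2 : word (L.map (Let.pull (fst V Y)) ++ [l, l']) =
      H.pull (fst V Y) (word L) * H.pull (snd V Y) (x * x') := by
    rw [word_append, word_pull, word_cons, word_cons, word_nil, mul_one, map_mul]
    rfl
  rw [h2] at h1
  have h3 := aTot_mul h1 (aTot_pull (snd V Y) hc)
  rw [mul_assoc, ← map_mul] at h3
  exact contract htop htr h3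

end Pool.Agent.Q56.CU
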