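import Pool.Agent.Q56.CU.Rules

/-!
# Codimension two over one function field
-/

set_option autoImplicit false
set_option linter.unusedSectionVars false

open CategoryTheory AlgebraicGeometry

universe u v w

namespace Pool.Agent.Q56.CU

open Module Pool.Agent.H914 Pool.Agent.H914.VarClass Pool.Agent.H914.VarClass.Obj
  Pool.Agent.W492.BB Pool.Agent.W550.Corr Pool.Agent.TH133 Pool.Agent.W484.CH Pool.Agent.Q56.FD
  Pool.Agent.Q56.FE Pool.Agent.Q56.FR Pool.Agent.Y133.Half Pool.Agent.Q56.CP Pool.Agent.W458.MF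
  Pool.Agent.Q56.CTS Pool.Agent.Q56.CT

variable {k : Type u} [Field k] {𝒱 : VarClass k} {C : TheoryData.{u, v, 0} 𝒱 ℚ} {K : Type w}
  [Field K] [CharZero K] {H : WeilTheoryData.{u, v, w} C K} [hC : IsChowProj C]
  [hH : IsWeilProj H] {Fr : ∀ X : 𝒱.Obj, X ⟶ X} {p a : ℕ} [Fact p.Prime] {𝒜 : Set 𝒱.Obj}
  {A B V V' X Y Z : 𝒱.Obj}

/-! ### The strong Tate conjecture for the members of the class -/

/-- the span of the words in letters on members of the class -/
def WA (H : WeilTheoryData.{u, v, w} C K) (Fr : ∀ X : 𝒱.Obj, X ⟶ X) (𝒜 : Set 𝒱.Obj)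
    (B V : 𝒱.Obj) : Submodule K (H.A V) :=
  Submodule.span K {v | ∃ L : List (Let H Fr 𝒜 B V), (∀ l ∈ L, ∃ α, l.lab = Sum.inl α) ∧
    v = word L}

lemma WA_mul {x y : H.A V} (hx : x ∈ WA H Fr 𝒜 B V) (hy : y ∈ WA H Fr 𝒜 B V) :
    x * y ∈ WA H Fr 𝒜 B V := by
  unfold WA at hx hy ⊢
  induction hx using Submodule.span_induction with
  | mem v hv =>
    obtain ⟨L, hL, rfl⟩ := hv
    induction hy using Submodule.span_induction with
    | mem u hu =>
      obtain ⟨L', hL', rfl⟩ := hu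
      refine Submodule.subset_span ⟨L ++ L', fun l hl => ?_, (word_append L L').symm⟩
      rcases List.mem_append.1 hl with h | h
      · exact hL l h
      · exact hL' l h
    | zero => rw [mul_zero]; exact Submodule.zero_mem _
    | add x y _ _ hx hy => rw [mul_add]; exact Submodule.add_mem _ hx hy
    | smul c x _ hx => rw [mul_smul_comm]; exact Submodule.smul_mem _ _ hx
  | zero => rw [zero_mul]; exact Submodule.zero_mem _
  | add x y _ _ hx hy => rw [add_mul]; exact Submodule.add_mem _ hx hy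
  | smul c x _ hx => rw [smul_mul_assoc]; exact Submodule.smul_mem _ _ hx

lemma WA_top [IsAlgClosed K] (hFr : IsFrobTheory H Fr p a)
    (hA : IsAbelianClass H Fr (p ^ a) 𝒜) (hA' : A ∈ 𝒜) (x : H.A A) : x ∈ WA H Fr 𝒜 B A := by
  have h0 : ∀ x ∈ H.gr A 1, x ∈ WA H Fr 𝒜 B A := by
    intro x hx
    have h2 := gr_gen (hFr.finite A) (Fr A) hx
    refine (Submodule.span_le (p := WA H Fr 𝒜 B A)).2 ?_ h2
    rintro v ⟨hv1, μ, hv2⟩
    refine Submodule.subset_span
      ⟨[(⟨A, 𝟙 A, Sum.inl μ, hA', v, hv1, hv2⟩ : Let H Fr 𝒜 B A)], fun l hl => ?_, ?_⟩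
    · rw [List.mem_singleton.1 hl]
      exact ⟨μ, rfl⟩
    · rw [word_cons, word_nil, mul_one]
      exact (H.pull_id v).symm
  refine (Submodule.span_le (p := WA H Fr 𝒜 B A)).2 ?_ (hA.gen A hA' x)
  rintro _ ⟨l, hl, rfl⟩
  induction l with
  | nil => exact Submodule.subset_span ⟨[], by simp, rfl⟩
  | cons x l ih =>
    rw [List.prod_cons]
    exact WA_mul (h0 x (hl x List.mem_cons_self)) (ih fun b hb => hl b (List.mem_cons_of_mem _ hb))

/-- the labels of nonzero words -/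
lemma word_weil (hFr : IsFrobTheory H Fr p a) : ∀ L : List (Let H Fr 𝒜 B V),
    word L ≠ 0 → (∀ x ∈ labs L, IsWeilNumber (p ^ a) 1 (egL x)) ∧
      IsWeilNumber (p ^ a) L.length (eg (labs L)) := by
  intro L
  induction L with
  | nil =>
    intro _
    refine ⟨fun x hx => absurd hx (Multiset.notMem_zero x), ?_⟩
    rw [labs_nil, eg, Multiset.map_zero, Multiset.prod_zero]
    have h1 := weil_pow (weil_q (K := K) (p ^ a)) 0
    rwa [zero_mul, pow_zero] at h1
  | cons l L ih =>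
    intro h0
    rw [word_cons] at h0
    have hx0 : l.x ≠ 0 := by
      intro h
      apply left_ne_zero_of_mul h0
      rw [Let.val, h, map_zero]
    have h1 : IsWeilNumber (p ^ a) 1 (egL l.lab) :=
      weil_of_gen (i := 1) hFr (by exact_mod_cast l.hx) l.hg hx0
    obtain ⟨h2, h3⟩ := ih (right_ne_zero_of_mul h0)
    refine ⟨?_, ?_⟩
    · intro x hx
      rw [labs_cons] at hx
      rcases Multiset.mem_cons.1 hx with rfl | hx
      · exact h1
      · exact h2 x hx
    · rw [labs_cons, eg, Multiset.map_cons, Multiset.prod_cons, List.length_cons, add_comm]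
      exact weil_mul h1 h3

lemma weight_unique {q i j : ℕ} (hq : 1 < q) {x : K}
    (h : IsWeilNumber q i x) (h' : IsWeilNumber q j x) : i = j := by
  obtain ⟨σ⟩ := exists_emb K
  have h1 := (isWeil_iff h.1).1 h σ
  have h2 := (isWeil_iff h.1).1 ⟨h.1, h'.2⟩ σ
  rw [h1] at h2
  have hq' : (1 : ℝ) < q := by exact_mod_cast hq
  exact pow_right_injective₀ (by linarith) hq'.ne' h2

/-- **The strong Tate conjecture from the rules.** -/
theorem strong_of_rules [IsAlgClosed K] (hFr : IsFrobTheory H Fr p a) (ha : 0 < a)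
    (hA : IsAbelianClass H Fr (p ^ a) 𝒜) {r : K} (hr : IsWeilNumber (p ^ a) 1 r)
    (R : Rules1 (p ^ a) r (Alg H Fr 𝒜 B)) (hA' : A ∈ 𝒜) : StrongTate H Fr (p ^ a) A := by
  have hq1 : 1 < p ^ a := one_lt_pow_prime ha
  have hq : 0 < p ^ a := by omega
  intro j x hx hxg
  refine mem_aSpan_of hx ?_
  have hgen : ∀ v ∈ {v | ∃ L : List (Let H Fr 𝒜 B A), (∀ l ∈ L, ∃ α, l.lab = Sum.inl α) ∧
      v = word L}, ∃ μ, v ∈ (hF H (Fr A)).maxGenEigenspace μ := by
    rintro v ⟨L, -, rfl⟩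
    exact ⟨_, word_gen hFr.nat L⟩
  have h3 := mem_span_gen (T := hF H (Fr A)) hgen (WA_top (B := B) hFr hA hA' x) (gen_iff.1 hxg)
  refine (Submodule.span_le (p := aTot H A)).2 ?_ h3
  rintro v ⟨⟨L, hL, rfl⟩, hvμ⟩
  by_cases hv0 : word L = 0
  · rw [hv0]
    exact Submodule.zero_mem _
  have h4 := eq_of_mem_gen (word_gen hFr.nat L) hvμ hv0
  obtain ⟨h5, h6⟩ := word_weil hFr L hv0
  have h7 : L.length = 2 * j := by
    rw [h4] at h6
    have h8 := weight_unique hq1 h6 (weil_pow (weil_q (K := K) (p ^ a)) j)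
    omega
  -- the labels
  obtain ⟨s, hs⟩ : ∃ s : Multiset K, labs L = s.map Sum.inl := by
    refine ⟨(labs L).map egL, ?_⟩
    rw [Multiset.map_map]
    conv_lhs => rw [← Multiset.map_id (labs L)]
    refine Multiset.map_congr rfl fun x hx => ?_
    obtain ⟨l, hl, rfl⟩ := Multiset.mem_map.1 hx
    obtain ⟨α, hα⟩ := hL l (Multiset.mem_coe.1 hl)
    rw [hα]
    rfl
  have h8 := R.all hq hr s (fun x hx => by
    have h9 := h5 (Sum.inl x) (by
      rw [hs]
      exact Multiset.mem_map_of_mem _ hx)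
    exact h9) (j := j) (by rw [← h7, ← card_labs, hs, Multiset.card_map]) (by
    rw [← h4, eg, hs, Multiset.map_map]
    have h10 : s.map (egL ∘ (Sum.inl : K → K ⊕ K)) = s.map id := rfl
    rw [h10, Multiset.map_id])
  exact h8 A L hs

/-! ### All varieties generated by the class -/

/-- The vanishing of pure theories on the varieties generated by the class. -/
lemma vanish_sum (hFr : IsFrobTheory H Fr p a) (ha : 0 < a)
    (hA : IsAbelianClass H Fr (p ^ a) 𝒜) (hT : ∀ A ∈ 𝒜, StrongTate H Fr (p ^ a) A)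
    {T : CorrData C} (hTp : IsPure T Fr (p ^ a)) (hZ : IsSumFactor C 𝒜 Z) (i : ℤ) :
    T.gr Z i = ⊥ :=
  hZ.vanish hTp.corr (fun W hW i => vanish_one hFr ha (nilp_iff.1 (hA.nilp W hW)) (hT W hW) hTp i) i

lemma factor_sum (h : IsFactor C Z Y) {𝒮 : Set 𝒱.Obj} (hY : IsSumFactor C 𝒮 Y) :
    IsSumFactor C 𝒮 Z := by
  obtain ⟨Q, P, hQ, hP, hQP⟩ := h
  obtain ⟨m, W, n, Q', P', hW, hQ', hP', hQP'⟩ := hY
  refine ⟨m, W, n, fun l => C.comp Q (Q' l), fun l => C.comp (P' l) P, hW, fun l => ?_,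
    fun l => ?_, ?_⟩
  · have h1 := comp_mem C (e := 0) (e' := n l) (Γ := Q) (Δ := Q' l) (by rwa [add_zero]) (hQ' l)
    rwa [zero_add] at h1
  · have h1 := comp_mem C (e := -n l) (e' := 0) (Γ := P' l) (Δ := P)
      (by rw [← sub_eq_add_neg]; exact hP' l) (by rwa [add_zero])
    rwa [add_zero, ← sub_eq_add_neg] at h1
  · have h1 : ∀ l, C.comp (C.comp Q (Q' l)) (C.comp (P' l) P) =
        C.comp (C.comp Q (C.comp (Q' l) (P' l))) P := by
      intro l
      rw [comp_assoc C, comp_assoc C, comp_assoc C]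
    rw [Finset.sum_congr rfl fun l _ => h1 l, ← sum_comp C, ← comp_sum C, hQP']
    have h2 : C.comp Q (C.graph (𝟙 Y)) = Q := comp_dg C Q
    rw [h2, hQP]

/-- Products. -/
lemma sum_prod (hA : IsAbelianClass H Fr (p ^ a) 𝒜) (hA' : A ∈ 𝒜) (hB : IsSumFactor C 𝒜 B) :
    IsSumFactor C 𝒜 (A.prod B) := by
  refine factor_sum (IsFactor.of_iso (f := sw A B) (g := sw B A) sw_sw) ?_
  obtain ⟨m, W, n, Q, P, hW, hQ, hP, hQP⟩ := hB.prod A
  refine ⟨m, W, n, Q, P, fun l => ?_, hQ, hP, hQP⟩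
  obtain ⟨V, hV, h⟩ := hW l
  rw [h]
  exact hA.prod V hV A hA'

lemma vanish_prod (hFr : IsFrobTheory H Fr p a) (ha : 0 < a)
    (hA : IsAbelianClass H Fr (p ^ a) 𝒜) (hT : ∀ A ∈ 𝒜, StrongTate H Fr (p ^ a) A)
    {T : CorrData C} (hTp : IsPure T Fr (p ^ a)) (hZ : IsSumFactor C 𝒜 Z)
    (hB : IsSumFactor C 𝒜 B) (i : ℤ) : T.gr (Z.prod B) i = ⊥ := by
  refine (hZ.prod B).vanish hTp.corr ?_ i
  rintro _ ⟨W, hW, rfl⟩ i
  exact vanish_sum hFr ha hA hT hTp (sum_prod hA hW hB) i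

/-- Rational equivalence and the strong Tate conjecture from the vanishing of pure theories. -/
lemma numTate_of_vanish (hFr : IsFrobTheory H Fr p a)
    (h : ∀ T : CorrData C, IsPure T Fr (p ^ a) → ∀ i, T.gr Z i = ⊥) :
    RatNum H Z ∧ StrongTate H Fr (p ^ a) Z :=
  ⟨ratEqNum_of H fun i => h _ hFr.numData_pure i,
    fun j => strong_of_coh (h _ hFr.cohData_pure j)⟩

end Pool.Agent.Q56.CU
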