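import Pool.Agent.Q56.CT.Comb

/-!
# Relations between Weil numbers, with one fixed letter
-/

namespace Pool.Agent.Q56.CU

open Pool.Agent.Q56.CTS Pool.Agent.Q56.CT

variable {K : Type*} [Field K] [CharZero K] {q : ℕ}

/-- The rules: `A s` means that the words with the labels `s` are algebraic. The labels `inl z` are
those of classes of degree one on members of the class, the labels `inr z` those of classes of
degree one on the fixed variety, `r` and `q / r` are eigenvalues on the fixed variety. -/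
structure Rules1 (q : ℕ) (r : K) (A : Multiset (K ⊕ K) → Prop) : Prop where
  one : A 0
  add : ∀ s t, A s → A t → A (s + t)
  cancel : ∀ s y, IsWeilNumber q 1 y → A (s + {Sum.inl y, Sum.inl ((q : K) / y)}) → A s
  cancel0 : ∀ s, A (s + {Sum.inr r, Sum.inr ((q : K) / r)}) → A s
  mid : ∀ z w y t, IsWeilNumber q 1 z → IsWeilNumber q 1 w → IsWeilNumber q 1 y →
    IsWeilNumber q 1 t → z * w = y * t →
    A {Sum.inl z, Sum.inl w, Sum.inl ((q : K) / y), Sum.inr ((q : K) / t)}

lemma splitMap {α β : Type*} (f : α → β) : ∀ (s t : Multiset β) (M : Multiset α),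
    M.map f = s + t → ∃ M₁ M₂, M = M₁ + M₂ ∧ M₁.map f = s ∧ M₂.map f = t := by
  intro s
  induction s using Multiset.induction with
  | empty =>
    intro t M h
    exact ⟨0, M, (zero_add M).symm, Multiset.map_zero f, by rw [h, zero_add]⟩
  | cons b s ih =>
    intro t M h
    have h1 : b ∈ M.map f := by
      rw [h, Multiset.cons_add]
      exact Multiset.mem_cons_self _ _
    obtain ⟨m, hm, rfl⟩ := Multiset.mem_map.1 h1
    obtain ⟨M', rfl⟩ := Multiset.exists_cons_of_mem hm
    rw [Multiset.map_cons, Multiset.cons_add, Multiset.cons_inj_right] at h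
    obtain ⟨M₁, M₂, h2, h3, h4⟩ := ih t M' h
    refine ⟨m ::ₘ M₁, M₂, by rw [h2, Multiset.cons_add], by rw [Multiset.map_cons, h3], h4⟩

/-- double quotients -/
lemma div_div' (hq : 0 < q) {y : K} (hy : IsWeilNumber q 1 y) : (q : K) / ((q : K) / y) = y := by
  have hq0 : ((q : ℕ) : K) ≠ 0 := by exact_mod_cast hq.ne'
  have hy0 := weil_ne hq hy
  field_simp

namespace Rules1

variable {r : K} {A : Multiset (K ⊕ K) → Prop} (R : Rules1 q r A)

include R

/-- The pairs with one letter on the fixed variety. -/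
lemma pair {t : K} (ht : IsWeilNumber q 1 t) :
    A {Sum.inl t, Sum.inr ((q : K) / t)} := by
  have h1 := R.mid t t t t ht ht ht ht rfl
  apply R.cancel _ t ht
  have h2 : ({Sum.inl t, Sum.inl t, Sum.inl ((q : K) / t), Sum.inr ((q : K) / t)} :
      Multiset (K ⊕ K)) =
      {Sum.inl t, Sum.inr ((q : K) / t)} + {Sum.inl t, Sum.inl ((q : K) / t)} := by
    simp only [Multiset.insert_eq_cons, ← Multiset.singleton_add]
    abel
  rwa [h2] at h1

/-- The fixed letter becomes a letter on a member of the class. -/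
lemma mid2 (hq : 0 < q) (hr : IsWeilNumber q 1 r) {z w y t : K} (hz : IsWeilNumber q 1 z)
    (hw : IsWeilNumber q 1 w) (hy : IsWeilNumber q 1 y) (ht : t = r ∨ t = (q : K) / r)
    (h : z * w = y * t) :
    A {Sum.inl z, Sum.inl w, Sum.inl ((q : K) / y), Sum.inl ((q : K) / t)} := by
  have hr' := weil_conj hq hr
  have hrr := div_div' hq hr
  rcases ht with rfl | rfl
  · have h1 := R.add _ _ (R.mid z w y t hz hw hy hr h) (R.pair hr')
    rw [hrr] at h1
    apply R.cancel0
    have h2 : ({Sum.inl z, Sum.inl w, Sum.inl ((q : K) / y), Sum.inr ((q : K) / t)} :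
        Multiset (K ⊕ K)) + {Sum.inl ((q : K) / t), Sum.inr t} =
        {Sum.inl z, Sum.inl w, Sum.inl ((q : K) / y), Sum.inl ((q : K) / t)} +
          {Sum.inr t, Sum.inr ((q : K) / t)} := by
      simp only [Multiset.insert_eq_cons, ← Multiset.singleton_add]
      abel
    rwa [h2] at h1
  · have h1 := R.add _ _ (R.mid z w y ((q : K) / r) hz hw hy hr' h) (R.pair hr)
    rw [hrr] at h1 ⊢
    apply R.cancel0
    have h2 : ({Sum.inl z, Sum.inl w, Sum.inl ((q : K) / y), Sum.inr r} :
        Multiset (K ⊕ K)) + {Sum.inl r, Sum.inr ((q : K) / r)} =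
        {Sum.inl z, Sum.inl w, Sum.inl ((q : K) / y), Sum.inl r} +
          {Sum.inr r, Sum.inr ((q : K) / r)} := by
      simp only [Multiset.insert_eq_cons, ← Multiset.singleton_add]
      abel
    rwa [h2] at h1

/-- **All words of length four.** -/
lemma mid4 [IsAlgClosed K] (hq : 0 < q) (hr : IsWeilNumber q 1 r) {z w y : K}
    (hz : IsWeilNumber q 1 z) (hw : IsWeilNumber q 1 w) (hy : IsWeilNumber q 1 y)
    (h : z * w = y * y) :
    A {Sum.inl z, Sum.inl w, Sum.inl ((q : K) / y), Sum.inl ((q : K) / y)} := by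
  have hq0 : ((q : ℕ) : K) ≠ 0 := by exact_mod_cast hq.ne'
  have hr0 := weil_ne hq hr
  have hz0 := weil_ne hq hz
  have hw0 := weil_ne hq hw
  have hy0 := weil_ne hq hy
  -- the square roots
  have hroot : ∀ {c x : K}, IsWeilNumber q 1 c → x ^ 2 = c * r → IsWeilNumber q 1 x := by
    intro c x hc hx
    apply weil_root (n := 2) (by norm_num)
    rw [hx]
    have h1 : IsWeilNumber q (1 + 1) (c * r) := weil_mul hc hr
    exact h1
  obtain ⟨z₁, hz₁⟩ := IsAlgClosed.exists_pow_nat_eq (z * r) (n := 2) (by norm_num)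
  have hz₁W := hroot hz hz₁
  have hz₁0 := weil_ne hq hz₁W
  obtain ⟨w₁, hzw⟩ : ∃ w₁, z₁ * w₁ = y * r := ⟨y * r / z₁, mul_div_cancel₀ _ hz₁0⟩
  have hw₁2 : w₁ ^ 2 = w * r := by
    have h1 : w₁ * z₁ = y * r := by rw [mul_comm, hzw]
    have h2 : w₁ ^ 2 * (z * r) = w * r * (z * r) := by
      rw [← hz₁, ← mul_pow, h1]
      calc (y * r) ^ 2 = (y * y) * r ^ 2 := by ring
        _ = z * w * r ^ 2 := by rw [h]
        _ = w * r * (z₁ ^ 2) := by rw [hz₁]; ring
    exact mul_right_cancel₀ (mul_ne_zero hz0 hr0) h2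
  have hw₁W := hroot hw hw₁2
  have hw₁0 := weil_ne hq hw₁W
  -- the words
  have e1 := R.mid2 hq hr (t := r) hz₁W hw₁W hy (Or.inl rfl) hzw
  have e2 := R.mid2 hq hr (t := (q : K) / r) (weil_conj hq hz₁W) (weil_conj hq hz₁W)
    (weil_conj hq hz) (Or.inr rfl) (by
      rw [div_mul_div_comm, div_mul_div_comm, ← hz₁, sq z₁])
  have e3 := R.mid2 hq hr (t := (q : K) / r) (weil_conj hq hw₁W) (weil_conj hq hw₁W)
    (weil_conj hq hw) (Or.inr rfl) (by
      rw [div_mul_div_comm, div_mul_div_comm, ← hw₁2, sq w₁])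
  rw [div_div' hq hz, div_div' hq hr] at e2
  rw [div_div' hq hw, div_div' hq hr] at e3
  have e4 := R.add _ _ (R.add _ _ e1 e1) (R.add _ _ e2 e3)
  apply R.cancel _ r hr
  apply R.cancel _ r hr
  apply R.cancel _ z₁ hz₁W
  apply R.cancel _ z₁ hz₁W
  apply R.cancel _ w₁ hw₁W
  apply R.cancel _ w₁ hw₁W
  have h2 : ({Sum.inl z₁, Sum.inl w₁, Sum.inl ((q : K) / y), Sum.inl ((q : K) / r)} +
      {Sum.inl z₁, Sum.inl w₁, Sum.inl ((q : K) / y), Sum.inl ((q : K) / r)} +
      ({Sum.inl ((q : K) / z₁), Sum.inl ((q : K) / z₁), Sum.inl z, Sum.inl r} +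
      {Sum.inl ((q : K) / w₁), Sum.inl ((q : K) / w₁), Sum.inl w, Sum.inl r}) :
      Multiset (K ⊕ K)) =
      {Sum.inl z, Sum.inl w, Sum.inl ((q : K) / y), Sum.inl ((q : K) / y)} +
      {Sum.inl r, Sum.inl ((q : K) / r)} + {Sum.inl r, Sum.inl ((q : K) / r)} +
      {Sum.inl z₁, Sum.inl ((q : K) / z₁)} + {Sum.inl z₁, Sum.inl ((q : K) / z₁)} +
      {Sum.inl w₁, Sum.inl ((q : K) / w₁)} + {Sum.inl w₁, Sum.inl ((q : K) / w₁)} := by
    simp only [Multiset.insert_eq_cons, ← Multiset.singleton_add]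
    abel
  rwa [h2] at e4

/-- The rules of the first kind. -/
lemma rules [IsAlgClosed K] (hq : 0 < q) (hr : IsWeilNumber q 1 r) :
    Rules q (fun s : Multiset (K ⊕ ℕ × K) =>
      ∀ t : Multiset K, s = t.map Sum.inl → A (t.map Sum.inl)) where
  one t ht := by
    have h1 : t = 0 := by
      have h2 := congrArg Multiset.card ht
      rw [Multiset.card_map, Multiset.card_zero] at h2
      exact Multiset.card_eq_zero.1 h2.symm
    rw [h1, Multiset.map_zero]
    exact R.one
  add s s' hs hs' t ht := by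
    obtain ⟨t₁, t₂, rfl, rfl, rfl⟩ := splitMap Sum.inl s s' t ht.symm
    rw [Multiset.map_add]
    exact R.add _ _ (hs t₁ rfl) (hs' t₂ rfl)
  cancel s y hy h t ht := by
    subst ht
    apply R.cancel _ y hy
    have e1 : ∀ (L : Type _) (f : K → L), (t + {y, (q : K) / y}).map f =
        t.map f + {f y, f ((q : K) / y)} := by
      intro L f
      rw [Multiset.map_add]
      simp only [Multiset.insert_eq_cons, Multiset.map_cons, Multiset.map_singleton]
    have h1 := h (t + {y, (q : K) / y}) (e1 _ _).symm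
    rw [e1] at h1
    exact h1
  mid z w y hz hw hy h t ht := by
    have h1 : t = {z, w, (q : K) / y, (q : K) / y} := by
      apply Multiset.map_injective (Sum.inl_injective (α := K) (β := ℕ × K))
      rw [← ht]
      simp only [Multiset.insert_eq_cons, Multiset.map_cons, Multiset.map_singleton]
    rw [h1]
    have h2 := R.mid4 hq hr hz hw hy h
    simp only [Multiset.insert_eq_cons, Multiset.map_cons, Multiset.map_singleton] at h2 ⊢
    exact h2
  mix i α β hi hα hβ h t ht := by
    exfalso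
    have h1 : (Sum.inr (i, α) : K ⊕ ℕ × K) ∈ t.map Sum.inl := by
      rw [← ht]
      exact Multiset.mem_add.2 (Or.inl (Multiset.mem_singleton_self _))
    obtain ⟨x, -, hx⟩ := Multiset.mem_map.1 h1
    exact Sum.inl_ne_inr hx

/-- **All words of weight one.** -/
theorem all [IsAlgClosed K] (hq : 0 < q) (hr : IsWeilNumber q 1 r) (s : Multiset K)
    (hW : ∀ x ∈ s, IsWeilNumber q 1 x) {j : ℕ} (hs : Multiset.card s = 2 * j)
    (hp : s.prod = (q : K) ^ j) : A (s.map Sum.inl) := by
  obtain ⟨l, rfl⟩ := Quot.exists_rep s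
  exact (R.rules hq hr).weight_one hq (l := l) (j := j) hW hs hp l rfl

end Rules1

end Pool.Agent.Q56.CU
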