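import Pool.Agent.Q56.CU.Geo

/-!
# The rules hold
-/

set_option autoImplicit false
set_option linter.unusedSectionVars false

open CategoryTheory AlgebraicGeometry

universe u v w

namespace Pool.Agent.Q56.CU

open Module Polynomial Pool.Agent.H914 Pool.Agent.H914.VarClass Pool.Agent.H914.VarClass.Obj
  Pool.Agent.W492.BB Pool.Agent.W550.Corr Pool.Agent.TH133 Pool.Agent.W484.CH Pool.Agent.Q56.FD
  Pool.Agent.Q56.FE Pool.Agent.Q56.FR Pool.Agent.Y133.Half Pool.Agent.Q56.CP Pool.Agent.W458.MF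
  Pool.Agent.Q56.CTS Pool.Agent.Q56.CT

variable {k : Type u} [Field k] {𝒱 : VarClass k} {C : TheoryData.{u, v, 0} 𝒱 ℚ} {K : Type w}
  [Field K] [CharZero K] {H : WeilTheoryData.{u, v, w} C K} [hC : IsChowProj C]
  [hH : IsWeilProj H] {Fr : ∀ X : 𝒱.Obj, X ⟶ X} {p a : ℕ} [Fact p.Prime] {𝒜 : Set 𝒱.Obj}
  {B V V' X Y : 𝒱.Obj}

/-- Classes of top degree are eigenvectors of the Frobenius endomorphism. -/
lemma pull_top (hFr : IsFrobTheory H Fr p a) {x : H.A Y} (hx : x ∈ H.gr Y (2 * Y.dim)) :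
    H.pull (Fr Y) x = (((p ^ a : ℕ) : K) ^ Y.dim) • x := by
  have h1 : H.pull (Fr Y) x - (((p ^ a : ℕ) : K) ^ Y.dim) • x = 0 := by
    apply H.nondeg
    intro b
    refine homog_induction H.toTheoryData (p := fun b => H.tr Y
      ((H.pull (Fr Y) x - (((p ^ a : ℕ) : K) ^ Y.dim) • x) * b) = 0) ?_ ?_ b
    · intro i b hb
      by_cases hi : i = 0
      · subst hi
        obtain ⟨c, rfl⟩ := hH.gr_zero Y b hb
        have h2 := tr_frob (hFr.frobenius Y) (H := H) x
        rw [mul_smul_comm, mul_one, map_smul, map_sub, map_smul, h2, smul_eq_mul (a := _ ^ _),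
          sub_self, smul_zero]
      · by_cases hi' : i < 0
        · rw [H.gr_neg Y i hi', Submodule.mem_bot] at hb
          rw [hb, mul_zero, map_zero]
        · have h2 := Submodule.sub_mem _ (H.pull_mem (Fr Y) hx)
            (Submodule.smul_mem _ (((p ^ a : ℕ) : K) ^ Y.dim) hx)
          exact tr_zero H (H.mul_mem h2 hb) (by omega)
    · intro a b ha hb
      rw [mul_add, map_add, ha, hb, add_zero]
  exact sub_eq_zero.1 h1

/-- The dual class. -/
lemma exists_dual_of [IsAlgClosed K] (hFr : IsFrobTheory H Fr p a) {y : K}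
    (hy : IsWeilNumber (p ^ a) 1 y) {x c : H.A Y} (hx : x ∈ H.gr Y 1)
    (hxg : x ∈ (hF H (Fr Y)).maxGenEigenspace y) {m : ℕ} (hm : m + 1 = Y.dim)
    (hc : c ∈ H.gr Y (2 * m))
    (hcF : H.pull (Fr Y) c = (((p ^ a : ℕ) : K) ^ m) • c) (hcc : ∀ z : H.A Y, c * z = z * c)
    (hne : ∃ z ∈ H.gr Y 1, H.tr Y (c * x * z) ≠ 0) :
    ∃ x' ∈ H.gr Y 1, x' ∈ (hF H (Fr Y)).maxGenEigenspace (((p ^ a : ℕ) : K) / y) ∧
      x * x' * c ∈ H.gr Y (2 * Y.dim) ∧ H.tr Y (x * x' * c) ≠ 0 := by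
  have hq : 0 < p ^ a := pow_pos (Fact.out : p.Prime).pos a
  have hq0 : ((p ^ a : ℕ) : K) ≠ 0 := by exact_mod_cast hq.ne'
  obtain ⟨x', hx', μ, hμ, hne⟩ : ∃ x' ∈ H.gr Y 1, ∃ μ, x' ∈ (hF H (Fr Y)).maxGenEigenspace μ ∧
      H.tr Y (c * x * x') ≠ 0 := by
    by_contra hcon
    push Not at hcon
    obtain ⟨z, hz, hz0⟩ := hne
    apply hz0
    have h1 := gr_gen (hFr.finite Y) (Fr Y) hz
    clear hz hz0
    induction h1 using Submodule.span_induction with
    | mem v hv =>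
      obtain ⟨hv1, μ, hv2⟩ := hv
      exact hcon v hv1 μ hv2
    | zero => rw [mul_zero, map_zero]
    | add x y _ _ hx hy => rw [mul_add, map_add, hx, hy, add_zero]
    | smul c x _ hx => rw [mul_smul_comm, map_smul, hx, smul_zero]
  have htop : c * x * x' ∈ H.gr Y (2 * Y.dim) := by
    have h1 := H.mul_mem (H.mul_mem hc hx) hx'
    have h2 : 2 * (m : ℤ) + 1 + 1 = 2 * Y.dim := by omega
    rwa [h2] at h1
  have h1 : c * x * x' ∈ (hF H (Fr Y)).maxGenEigenspace (((p ^ a : ℕ) : K) ^ m * y * μ) :=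
    gen_mul (gen_mul (eig_mem_gen hcF) hxg) hμ
  have h2 : c * x * x' ∈ (hF H (Fr Y)).maxGenEigenspace (((p ^ a : ℕ) : K) ^ Y.dim) :=
    eig_mem_gen (pull_top hFr htop)
  have h3 := eq_of_mem_gen h1 h2 (by
    intro h4
    apply hne
    rw [h4, map_zero])
  have hy0 := weil_ne hq hy
  have h4 : μ = ((p ^ a : ℕ) : K) / y := by
    rw [eq_div_iff hy0]
    have h5 : ((p ^ a : ℕ) : K) ^ m * (μ * y) = ((p ^ a : ℕ) : K) ^ m * ((p ^ a : ℕ) : K) := by
      rw [← pow_succ, hm, ← h3]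
      ring
    exact mul_left_cancel₀ (pow_ne_zero _ hq0) h5
  rw [h4] at hμ
  rw [mul_assoc, hcc] at htop hne
  exact ⟨x', hx', hμ, htop, hne⟩

/-- Powers of a divisor class. -/
lemma divisor_pow (hFr : IsFrobTheory H Fr p a) {D : C.A Y} (hD : C.Deg 1 D) (m : ℕ) :
    H.cl (D ^ m) ∈ H.gr Y (2 * m) ∧
      H.pull (Fr Y) (H.cl (D ^ m)) = (((p ^ a : ℕ) : K) ^ m) • H.cl (D ^ m) := by
  have h1 : C.Deg (m : ℤ) (D ^ m) := by
    induction m with
    | zero => rw [pow_zero]; exact C.one_mem Y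
    | succ m ih =>
      have h2 := C.mul_mem ih hD
      rw [← pow_succ] at h2
      exact_mod_cast h2
  refine ⟨H.cl_mem h1, ?_⟩
  have h2 : C.pull (Fr Y) (D ^ m) = ((p ^ a : ℕ) : ℚ) ^ m • (D ^ m) :=
    (hFr.frobenius Y).chow m _ h1
  rw [← H.cl_pull, h2, cl_smul]
  push_cast
  rfl

variable (hcomm : Anticommute H) (hFr : IsFrobTheory H Fr p a)
  (hA : IsAbelianClass H Fr (p ^ a) 𝒜)

include hFr hA in
/-- Contraction over a member of the class. -/
lemma alg_cancel [IsAlgClosed K] (s : Multiset (K ⊕ K)) (y : K) (hy : IsWeilNumber (p ^ a) 1 y)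
    (h : Alg H Fr 𝒜 B (s + {Sum.inl y, Sum.inl (((p ^ a : ℕ) : K) / y)})) :
    Alg H Fr 𝒜 B s := by
  obtain ⟨Y, hY, x, hx, hx0, hxy⟩ := hA.honda y hy
  obtain ⟨D, hD, hDn⟩ := hA.polar Y hY
  have hxg : x ∈ (hF H (Fr Y)).maxGenEigenspace y := eig_mem_gen hxy
  have hdim : 1 ≤ Y.dim := by
    by_contra hcon
    have h1 : H.gr Y 1 = ⊥ := gr_top H (by omega)
    have h2 : x ∈ H.gr Y 1 := hx
    rw [h1] at h2
    exact hx0 ((Submodule.mem_bot _).1 h2)
  obtain ⟨hc1, hc2⟩ := divisor_pow (H := H) hFr hD (Y.dim - 1)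
  obtain ⟨x', hx', hg', htop, htr⟩ := exists_dual_of hFr hy (m := Y.dim - 1) hx hxg
    (by omega) hc1 hc2 (fun z => H.cl_central _ z) (by
      by_contra hcon
      push Not at hcon
      exact hx0 (hDn x hx hcon))
  exact alg_contract (y := Sum.inl y) (y' := Sum.inl (((p ^ a : ℕ) : K) / y)) (Y := Y) hY hY hx
    hx' (cl_mem_aTot _) hxg hg' htop htr h

/-- Contraction over the fixed curve. -/
lemma alg_cancel0 [IsAlgClosed K] (hFr : IsFrobTheory H Fr p a) (hB : B.dim = 1) {x : H.A B}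
    (hx : x ∈ H.gr B 1) (hx0 : x ≠ 0) {r : K} (hr : IsWeilNumber (p ^ a) 1 r)
    (hxg : x ∈ (hF H (Fr B)).maxGenEigenspace r) (s : Multiset (K ⊕ K))
    (h : Alg H Fr 𝒜 B (s + {Sum.inr r, Sum.inr (((p ^ a : ℕ) : K) / r)})) :
    Alg H Fr 𝒜 B s := by
  obtain ⟨x', hx', hg', htop, htr⟩ := exists_dual_of (c := (1 : H.A B)) hFr hr (m := 0) hx hxg
    (by omega) (H.one_mem B) (by rw [map_one, pow_zero, one_smul])
    (fun z => by rw [one_mul, mul_one]) (by
      by_contra hcon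
      push Not at hcon
      apply hx0
      apply H.nondeg
      intro b
      refine homog_induction H.toTheoryData (p := fun b => H.tr B (x * b) = 0) ?_ ?_ b
      · intro i b hb
        by_cases hi : i = 1
        · subst hi
          have h1 := hcon b hb
          rwa [one_mul] at h1
        · exact tr_zero H (H.mul_mem hx hb) (by omega)
      · intro a b ha hb
        rw [mul_add, map_add, ha, hb, add_zero])
  exact alg_contract (y := Sum.inr r) (y' := Sum.inr (((p ^ a : ℕ) : K) / r)) (Y := B) rfl rfl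
    hx hx' one_mem_aTot hxg hg' htop htr h

include hA in
/-- words in letters on members of the class come from members of the class -/
lemma exists_pullA : ∀ L : List (Let H Fr 𝒜 B V), L ≠ [] → (∀ l ∈ L, ∃ α, l.lab = Sum.inl α) →
    ∃ A ∈ 𝒜, ∃ (g : V ⟶ A) (L' : List (Let H Fr 𝒜 B A)), word L = H.pull g (word L') ∧
      labs L' = labs L ∧ L'.length = L.length := by
  intro L
  induction L with
  | nil => intro h; exact absurd rfl h
  | cons l L ih =>
    intro _ hL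
    obtain ⟨α, hα⟩ := hL l List.mem_cons_self
    have hlY : l.Y ∈ 𝒜 := by
      have h1 := l.ok
      rw [hα] at h1
      exact h1
    by_cases hLe : L = []
    · subst hLe
      refine ⟨l.Y, hlY, l.f, [⟨l.Y, 𝟙 l.Y, l.lab, l.ok, l.x, l.hx, l.hg⟩], ?_, rfl, rfl⟩
      rw [word_cons, word_cons, word_nil, word_nil, mul_one, mul_one]
      change H.pull l.f l.x = H.pull l.f (H.pull (𝟙 l.Y) l.x)
      rw [H.pull_id]
    · obtain ⟨A, hA', g, L', h1, h2, h3⟩ := ih hLe fun l' hl' => hL l' (List.mem_cons_of_mem _ hl')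
      refine ⟨A.prod l.Y, hA.prod A hA' l.Y hlY, Obj.lift g l.f,
        ⟨l.Y, snd A l.Y, l.lab, l.ok, l.x, l.hx, l.hg⟩ :: L'.map (Let.pull (fst A l.Y)),
        ?_, ?_, ?_⟩
      · rw [word_cons, word_cons, word_pull, map_mul, ← H.pull_comp _ (fst A l.Y), lift_fst, h1]
        congr 1
        change H.pull l.f l.x = H.pull (Obj.lift g l.f) (H.pull (snd A l.Y) l.x)
        rw [← H.pull_comp, lift_snd]
      · rw [labs_cons, labs_cons, labs_pull, h2]
      · rw [List.length_cons, List.length_cons, List.length_map, h3]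

include hcomm hFr hA in
/-- **The words of length four.** -/
lemma alg_mid (hT : ∀ A ∈ 𝒜, TateThreeOne H Fr (p ^ a) A B) (z w y t : K)
    (hy : IsWeilNumber (p ^ a) 1 y) (ht : IsWeilNumber (p ^ a) 1 t) (h : z * w = y * t) :
    Alg H Fr 𝒜 B {Sum.inl z, Sum.inl w, Sum.inl (((p ^ a : ℕ) : K) / y),
      Sum.inr (((p ^ a : ℕ) : K) / t)} := by
  have hq : 0 < p ^ a := pow_pos (Fact.out : p.Prime).pos a
  have hy0 := weil_ne hq hy
  have ht0 := weil_ne hq ht
  intro V L hL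
  obtain ⟨L₁, L₂, c, h1, h2, h3⟩ := split_word hcomm (s := {Sum.inl z, Sum.inl w,
    Sum.inl (((p ^ a : ℕ) : K) / y)}) (t := {Sum.inr (((p ^ a : ℕ) : K) / t)}) (by
      rw [hL]
      simp only [Multiset.insert_eq_cons, ← Multiset.singleton_add]
      abel)
  rw [h3]
  refine Submodule.smul_mem _ _ ?_
  -- the letter on the fixed variety
  obtain ⟨l, rfl⟩ : ∃ l, L₂ = [l] := by
    apply List.length_eq_one_iff.1
    rw [← card_labs, h2, Multiset.card_singleton]
  have hlab : l.lab = Sum.inr (((p ^ a : ℕ) : K) / t) := by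
    rw [labs_cons, labs_nil] at h2
    exact Multiset.singleton_inj.1 h2
  obtain ⟨Y, f, lab, ok, x, hx, hg⟩ := l
  simp only at hlab
  subst hlab
  have hYB : Y = B := ok
  subst hYB
  -- the other letters
  obtain ⟨A, hA', g, L', h5, h6, h7⟩ := exists_pullA hA L₁ (by
      intro h0
      rw [h0, labs_nil] at h1
      exact absurd h1.symm (by simp)) (by
      intro l hl
      have h4 : l.lab ∈ labs L₁ := Multiset.mem_map_of_mem _ hl
      rw [h1] at h4
      simp only [Multiset.insert_eq_cons, Multiset.mem_cons, Multiset.mem_singleton] at h4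
      rcases h4 with h4 | h4 | h4
      · exact ⟨_, h4⟩
      · exact ⟨_, h4⟩
      · exact ⟨_, h4⟩)
  have h8 : L'.length = 3 := by
    rw [h7, ← card_labs, h1]
    rfl
  have h9 := word_mem L'
  have h10 := word_gen hFr.nat L'
  rw [h8] at h9
  have h11 : eg (labs L') = z * (w * (((p ^ a : ℕ) : K) / y)) := by
    rw [h6, h1, eg]
    simp only [Multiset.insert_eq_cons, Multiset.map_cons, Multiset.map_singleton,
      Multiset.prod_cons, Multiset.prod_singleton]
    rfl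
  rw [h11] at h10
  have h12 : H.pull (fst A Y) (word L') * H.pull (snd A Y) x ∈
      (hF H (Fr (A.prod Y))).maxGenEigenspace (((p ^ a : ℕ) : K) ^ 2) := by
    have h13 := gen_mul (gen_pull' hFr.nat (fst A Y) h10) (gen_pull' hFr.nat (snd A Y) hg)
    have h14 : z * (w * (((p ^ a : ℕ) : K) / y)) * egL (Sum.inr (((p ^ a : ℕ) : K) / t)) =
        ((p ^ a : ℕ) : K) ^ 2 := by
      change z * (w * (((p ^ a : ℕ) : K) / y)) * (((p ^ a : ℕ) : K) / t) = _
      have h15 : z * (w * (((p ^ a : ℕ) : K) / y)) * (((p ^ a : ℕ) : K) / t) =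
          (z * w) * ((p ^ a : ℕ) : K) ^ 2 / (y * t) := by
        field_simp
      rw [h15, h, mul_div_assoc, mul_div_cancel₀ _ (mul_ne_zero hy0 ht0)]
    rw [h14] at h13
    exact h13
  have h16 := hT A hA' ⟨h12, Submodule.subset_span ⟨word L', h9, x, hx, rfl⟩⟩
  have h17 := aTot_pull (Obj.lift g f) (aSpan_le 2 h16)
  rw [map_mul, ← H.pull_comp, ← H.pull_comp, lift_fst, lift_snd, ← h5] at h17
  rw [word_cons, word_nil, mul_one]
  exact h17

include hcomm hFr hA in
/-- All rules hold. -/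
theorem rules [IsAlgClosed K] (hB : B.dim = 1) {x : H.A B} (hx : x ∈ H.gr B 1) (hx0 : x ≠ 0)
    {r : K} (hr : IsWeilNumber (p ^ a) 1 r) (hxg : x ∈ (hF H (Fr B)).maxGenEigenspace r)
    (hT : ∀ A ∈ 𝒜, TateThreeOne H Fr (p ^ a) A B) :
    Rules1 (p ^ a) r (Alg H Fr 𝒜 B) where
  one := alg_zero
  add _ _ hs ht := alg_add hcomm hs ht
  cancel s y hy h := alg_cancel hFr hA s y hy h
  cancel0 s h := alg_cancel0 hFr hB hx hx0 hr hxg s h
  mid z w y t _ _ hy ht h := alg_mid hcomm hFr hA hT z w y t hy ht h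

end Pool.Agent.Q56.CU
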